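import Pool.Agent.Helper18.RB4

set_option autoImplicit false

open Set Topology

namespace Pool.Agent.Results.MP_19f369_gt.Counterexample

/-- `S(X)`: the continuous self-maps of `X`.  As a subtype of `X → X` (with the product topology)
it carries the topology of pointwise convergence. -/
abbrev SelfMaps (X : Type) [TopologicalSpace X] : Type := {f : X → X // Continuous f}

/-- The identity map, the unit of `S(X)`. -/
def idMap (X : Type) [TopologicalSpace X] : SelfMaps X := ⟨id, continuous_id⟩

/-- `S(X)` is right bounded: for every neighbourhood `U` of the identity there is a finite `F`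
such that every `g` is of the form `u ∘ f` with `u ∈ U`, `f ∈ F`. -/
def RightBounded (X : Type) [TopologicalSpace X] : Prop :=
  ∀ U ∈ 𝓝 (idMap X), ∃ F : Set (SelfMaps X), F.Finite ∧
    ∀ g : SelfMaps X, ∃ u ∈ U, ∃ f ∈ F, (g : X → X) = (u : X → X) ∘ (f : X → X)

/-- Every open cover (of any size) has a refinement by pairwise disjoint open sets. -/
def CoveringDimZero (X : Type) [TopologicalSpace X] : Prop :=
  ∀ (ι : Type) (U : ι → Set X), (∀ i, IsOpen (U i)) → (⋃ i, U i) = univ →
    ∃ W : ι → Set X, (∀ i, IsOpen (W i)) ∧ (∀ i, W i ⊆ U i) ∧ (⋃ i, W i) = univ ∧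
      Pairwise (Function.onFun Disjoint W)

/-- Homogeneity. -/
def Homogeneous (X : Type) [TopologicalSpace X] : Prop :=
  ∀ x y : X, ∃ h : X ≃ₜ X, h x = y

open Pool.Agent.Helper18.RB in
/-- There is a separable metrizable topological group `X` (in particular a homogeneous space) of
covering dimension zero such that `S(X)` with the pointwise topology is not right bounded. -/
theorem result : ∃ (X : Type) (_ : TopologicalSpace X) (_ : AddCommGroup X),
    IsTopologicalAddGroup X ∧ TopologicalSpace.MetrizableSpace X ∧
    TopologicalSpace.SeparableSpace X ∧ CoveringDimZero X ∧ Homogeneous X ∧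
    ¬ RightBounded X := by
  obtain ⟨X, hX⟩ := exists_star
  have hK : TopologicalSpace.MetrizableSpace K := inferInstance
  have hKs : SecondCountableTopology K := inferInstance
  have hmet : TopologicalSpace.MetrizableSpace X :=
    (Topology.IsEmbedding.subtypeVal (X := K) (p := fun x => x ∈ X)).metrizableSpace
  have hsec : SecondCountableTopology X :=
    TopologicalSpace.Subtype.secondCountableTopology (X : Set K)
  refine ⟨X, inferInstance, inferInstance, inferInstance, hmet, inferInstance, ?_, ?_, ?_⟩
  · exact fun ι U hU hcov => zero_dim X ι U hU hcov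
  · intro x y
    refine ⟨Homeomorph.addRight (-x + y), ?_⟩
    show x + (-x + y) = y
    rw [add_neg_cancel_left]
  · intro hRB
    have hVopen : IsOpen {x : X | (x : K) 0 = 0} := by
      have h : IsOpen ({0} : Set (ZMod 2)) := isOpen_discrete _
      exact h.preimage ((continuous_apply 0).comp continuous_subtype_val :
        Continuous fun y : X => (y : K) 0)
    have hU : {u : SelfMaps X | ((u.1 0 : X) : K) 0 = 0} ∈ 𝓝 (idMap X) := by
      have hcont : Continuous (fun u : SelfMaps X => u.1 0) :=
        (continuous_apply (0 : X)).comp continuous_subtype_val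
      exact (hVopen.preimage hcont).mem_nhds (rfl : ((0 : X) : K) 0 = 0)
    obtain ⟨F, hF, hFg⟩ := hRB _ hU
    have hA : (⋃ f ∈ F, {a : X | Function.Injective f.1 ∧ f.1 a = 0}).Finite := by
      refine hF.biUnion fun f _ => ?_
      refine Set.Subsingleton.finite ?_
      rintro a ⟨h1, h2⟩ b ⟨-, h3⟩
      exact h1 (h2.trans h3.symm)
    obtain ⟨g, hg⟩ := moving X hX _ hA
    obtain ⟨u, hu, f, hf, hguf⟩ := hFg ⟨g, g.continuous⟩
    have hguf' : ∀ x, g x = u.1 (f.1 x) := fun x => congrFun hguf x
    have hleft : Function.LeftInverse (fun x => g.symm (u.1 x)) f.1 := by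
      intro x
      show g.symm (u.1 (f.1 x)) = x
      rw [← hguf', g.symm_apply_apply]
    have hemb : Topology.IsClosedEmbedding f.1 :=
      hleft.isClosedEmbedding (g.symm.continuous.comp u.2) f.2
    obtain ⟨a, ha⟩ := onto X hX f.1 hemb 0
    have h1 := hg a (mem_biUnion hf ⟨hemb.injective, ha⟩)
    apply h1
    rw [hguf', ha]
    exact hu

end Pool.Agent.Results.MP_19f369_gt.Counterexample
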